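import Pool.Agent.H42.BG4

open Cardinal Pool.Agent.H42.BG

/-- Under CH neither `S1` nor `Sfin` for Borel omega-covers is hereditary. -/
theorem Pool.Agent.Results.MP_c563c8_gt.Full.result (hCH : (𝔠 : Cardinal.{0}) = ℵ₁) :
    ∃ X Y : Set ℝ, Y ⊆ X ∧ S1 (BOm X) (BOm X) ∧ Sfin (BOm X) (BOm X) ∧
      ¬ S1 (BOm Y) (BOm Y) ∧ ¬ Sfin (BOm Y) (BOm Y) := by
  obtain ⟨X, Y, h1, h2, -, h3, -⟩ := real_core hCH
  have h4 : S1 (BOm X) (BOm X) := h2.s1.mono (fun _ h => h) fun _ h => h.om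
  exact ⟨X, Y, h1, h4, h4.sfin, fun h => h3 h.sfin, h3⟩
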